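import Pool.Agent.H.MP_4770bc_pr.Z

/-! A graph roughly isometric to `ℤ³` on which the greedy random walk is recurrent. -/

namespace Pool.Agent.Results.MP_b2ff63_pr.No

open MeasureTheory Pool.Agent.H.GRW

theorem result : ∃ (V : Type) (G : SimpleGraph V) (_ : G.LocallyFinite), G.Connected ∧
    (∃ (φ : V → Fin 3 → ℤ) (a b c : ℝ), 1 ≤ a ∧ 0 ≤ b ∧ 0 ≤ c ∧
      (∀ x y, a⁻¹ * G.dist x y - b ≤ (∑ i, |φ x i - φ y i| : ℤ) ∧
        (∑ i, |φ x i - φ y i| : ℤ) ≤ a * G.dist x y + b) ∧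
      ∀ q : Fin 3 → ℤ, ∃ x, (∑ i, |φ x i - q i| : ℤ) ≤ c) ∧
    ∃ v₀ : V, (∃ (Ω : Type) (_ : MeasurableSpace Ω) (P : Measure Ω) (X : ℕ → Ω → V),
        IsGRW G v₀ P X) ∧
      ∀ (Ω : Type) [MeasurableSpace Ω] (P : Measure Ω) (X : ℕ → Ω → V), IsGRW G v₀ P X →
        ∀ᵐ ω ∂P, {t | X t ω = v₀}.Infinite := by
  obtain ⟨p, hp⟩ := Z3.ex_par
  refine ⟨p.net.Vx, p.net.gr, inferInstance, p.conn, ⟨fun x => Z3.z (Par.bh x), 3, 72000002, 0,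
    by norm_num, by norm_num, le_rfl, fun x y => ?_, fun q => ?_⟩, _, p.recurrent⟩
  · have a : (p.net.gr.dist x y : ℝ) ≤
        2 * (∑ i, |Z3.z (Par.bh x) i - Z3.z (Par.bh y) i| : ℤ) + 72000002 := by
      exact_mod_cast Z3.lower hp x y
    have b : ((∑ i, |Z3.z (Par.bh x) i - Z3.z (Par.bh y) i| : ℤ) : ℝ) ≤
        3 * (p.net.gr.dist x y : ℝ) := by exact_mod_cast Z3.upper hp x y
    have c : (0 : ℝ) ≤ (∑ i, |Z3.z (Par.bh x) i - Z3.z (Par.bh y) i| : ℤ) := by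
      exact_mod_cast Finset.sum_nonneg fun i _ => abs_nonneg _
    constructor <;> linarith
  · obtain ⟨n, rfl⟩ := Z3.z_surj q
    exact ⟨.inl (.hub n), by simp [Par.bh, Par.hj]⟩

end Pool.Agent.Results.MP_b2ff63_pr.No
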